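import Pool.Agent.P.MP_f1a348_lc.LI.Red

/-!
A finite group is determined by its Latin square graph, small orders included.
-/

namespace Pool.Agent.P.MP_f1a348_lc.LI

theorem iso_of_mulEquiv {G H : Type} [Group G] [Group H] (f : G ≃* H) :
    Nonempty (latinGraph G ≃g latinGraph H) :=
  ⟨⟨f.toEquiv.prodCongr f.toEquiv, fun {p q} => by simp [latinGraph, ← map_mul, Prod.ext_iff]⟩⟩

theorem order_four (G : Type) [Group G] (h : Nat.card G = 4) :
    Nonempty (G ≃* Multiplicative (ZMod 4)) ∨ Nonempty (G ≃* Multiplicative (ZMod 2 × ZMod 2)) := by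
  by_cases hc : IsCyclic G
  · exact Or.inl ⟨mulEquivOfCyclicCardEq (by simp [h])⟩
  · have : IsKleinFour G :=
      ⟨h, (not_isCyclic_iff_exponent_eq_prime Nat.prime_two (by simpa using h)).1 hc⟩
    exact Or.inr IsKleinFour.nonempty_mulEquiv

theorem no_iso_four (ψ : latinGraph (Multiplicative (ZMod 2 × ZMod 2)) ≃g
    latinGraph (Multiplicative (ZMod 4))) : False := by
  let f : Fin 4 → Multiplicative (ZMod 2 × ZMod 2) × Multiplicative (ZMod 2 × ZMod 2) :=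
    ![(.ofAdd (0, 0), .ofAdd (0, 0)), (.ofAdd (1, 0), .ofAdd (0, 1)),
      (.ofAdd (0, 1), .ofAdd (1, 1)), (.ofAdd (1, 1), .ofAdd (1, 0))]
  have h1 : ∀ i j, i ≠ j → f i ≠ f j ∧
      ¬ ((f i).1 = (f j).1 ∨ (f i).2 = (f j).2 ∨ (f i).1 * (f i).2 = (f j).1 * (f j).2) := by
    decide
  have h2 : ∀ i j, i ≠ j → ¬ ((ψ (f i)).1 = (ψ (f j)).1 ∨ (ψ (f i)).2 = (ψ (f j)).2 ∨
      (ψ (f i)).1 * (ψ (f i)).2 = (ψ (f j)).1 * (ψ (f j)).2) := fun i j hij h =>
    (h1 i j hij).2 (ψ.map_adj_iff.1 ⟨ψ.injective.ne (h1 i j hij).1, h⟩).2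
  have h3 : ∀ a b c d : Multiplicative (ZMod 4), a ≠ b → a ≠ c → a ≠ d → b ≠ c → b ≠ d → c ≠ d →
      a * b * c * d = .ofAdd 2 := by
    intro a b c d
    fin_cases a <;> fin_cases b <;> fin_cases c <;> fin_cases d <;> decide
  have h4 : ∀ s : Fin 4 → Multiplicative (ZMod 4), (∀ i j, i ≠ j → s i ≠ s j) →
      s 0 * s 1 * s 2 * s 3 = .ofAdd 2 := fun s hs =>
    h3 _ _ _ _ (hs _ _ (by decide)) (hs _ _ (by decide)) (hs _ _ (by decide))
      (hs _ _ (by decide)) (hs _ _ (by decide)) (hs _ _ (by decide))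
  have a := h4 (fun i => (ψ (f i)).1) fun i j hij e => h2 i j hij (Or.inl e)
  have b := h4 (fun i => (ψ (f i)).2) fun i j hij e => h2 i j hij (Or.inr (Or.inl e))
  have c := h4 (fun i => (ψ (f i)).1 * (ψ (f i)).2) fun i j hij e =>
    h2 i j hij (Or.inr (Or.inr e))
  have d : (Multiplicative.ofAdd 2 : Multiplicative (ZMod 4)) = .ofAdd 2 * .ofAdd 2 := by
    conv_rhs => rw [← a]; arg 2; rw [a, ← b]
    rw [← c]
    ac_rfl
  revert d
  decide

theorem group_iso_iff {G H : Type} [Group G] [Group H] [Finite G] [Finite H] :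
    Nonempty (latinGraph G ≃g latinGraph H) ↔ Nonempty (G ≃* H) := by
  refine ⟨fun ⟨ψ⟩ => ?_, fun ⟨f⟩ => iso_of_mulEquiv f⟩
  have hc : Nat.card G = Nat.card H := by
    have := Nat.card_congr ψ.toEquiv
    rwa [Nat.card_prod, Nat.card_prod, Nat.mul_self_inj] at this
  by_cases h5 : 5 ≤ Nat.card G
  · exact (iso_iff hc h5).2 ⟨ψ⟩
  by_cases h4 : Nat.card G = 4
  · rcases order_four G h4 with ⟨⟨a⟩⟩ | ⟨⟨a⟩⟩ <;>
      rcases order_four H (hc ▸ h4) with ⟨⟨b⟩⟩ | ⟨⟨b⟩⟩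
    · exact ⟨a.trans b.symm⟩
    · obtain ⟨x⟩ := iso_of_mulEquiv a
      obtain ⟨y⟩ := iso_of_mulEquiv b
      exact (no_iso_four ((y.symm.trans ψ.symm).trans x)).elim
    · obtain ⟨x⟩ := iso_of_mulEquiv a
      obtain ⟨y⟩ := iso_of_mulEquiv b
      exact (no_iso_four ((x.symm.trans ψ).trans y)).elim
    · exact ⟨a.trans b.symm⟩
  have h0 : 0 < Nat.card G := Nat.card_pos
  have cyc : ∀ (K : Type) [Group K], Nat.card K = Nat.card G → IsCyclic K := fun K _ hK => by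
    by_cases h2 : Nat.card G = 3
    · exact isCyclic_of_prime_card (p := 3) (hK.trans h2)
    · refine isCyclic_of_card_dvd_prime (p := 2) ?_
      rw [hK]
      have : Nat.card G = 1 ∨ Nat.card G = 2 := by omega
      rcases this with h | h <;> simp [h]
  have := cyc G rfl
  have := cyc H hc.symm
  exact ⟨mulEquivOfCyclicCardEq hc⟩

end Pool.Agent.P.MP_f1a348_lc.LI
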