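import Pool.Agent.Lib.Helper47.PTMore

/-!
Reading a multiplication table off a Latin square graph in polynomial time.
-/

namespace Pool.Agent.P.MP_f1a348_lc.LI

open Pool.Agent.Lib.Helper47

/-- a list of vertices and an adjacency matrix -/
abbrev Gp : Type := List ℕ × List Bool

/-- adjacency -/
def adj (g : Gp) (u v : ℕ) : Bool := g.2.getD (u * g.1.length + v) false

/-- `t` is a common neighbour of `u`, `v`, `w` -/
def adj3 (g : Gp) (u v w t : ℕ) : Bool := adj g u t && adj g v t && adj g w t

/-- `w` lies on the line through the adjacent vertices `u`, `v` -/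
def col (g : Gp) (u v w : ℕ) : Bool :=
  w == u || w == v || (adj g u w && adj g v w &&
    g.1.any (fun s => g.1.any (fun t => s != t && adj3 g u v w s && adj3 g u v w t)))

/-- the first line through the vertex `0` -/
def lineR (g : Gp) : List ℕ := g.1.filter (col g 0 ((g.1.find? (adj g 0)).getD 0))

/-- the second line through the vertex `0` -/
def lineC (g : Gp) : List ℕ :=
  g.1.filter (col g 0 ((g.1.find? (fun w => adj g 0 w && !(lineR g).contains w)).getD 0))

/-- `u` and `v` lie on a line parallel to `L` -/
def same (g : Gp) (L : List ℕ) (u v : ℕ) : Bool :=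
  u == v || (adj g u v && (!L.any (col g u v) || L.all (col g u v)))

/-- `u` and `v` lie on a line of the third class -/
def sameD (g : Gp) (u v : ℕ) : Bool :=
  u == v || (adj g u v && !same g (lineR g) u v && !same g (lineC g) u v)

/-- the first coordinate -/
def c0 (g : Gp) (v : ℕ) : ℕ := (lineR g).findIdx (same g (lineC g) v)

/-- the third coordinate -/
def c2 (g : Gp) (v : ℕ) : ℕ := (lineR g).findIdx (sameD g v)

/-- the second coordinate -/
def c1 (g : Gp) (v : ℕ) : ℕ := c2 g (((lineC g).find? (same g (lineR g) v)).getD 0)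

/-- the multiplication -/
def mul (g : Gp) (a b : ℕ) : ℕ := c2 g ((g.1.find? (fun v => c0 g v == a && c1 g v == b)).getD 0)

/-- the order of the group -/
def ord (g : Gp) : ℕ := (lineR g).length

/-- the elements of the group -/
def idx (g : Gp) : List ℕ := List.range (ord g)

/-- the multiplication is that of a group -/
def groupB (g : Gp) : Bool :=
  (idx g).all (fun a => (idx g).all (fun b => Nat.blt (mul g a b) (ord g) &&
    (idx g).all (fun c => mul g (mul g a b) c == mul g a (mul g b c)))) &&
  (idx g).any (fun z => (idx g).all (fun a => mul g z a == a &&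
    (idx g).any (fun b => mul g b a == z)))

/-- the coordinates identify the graph with the Latin square graph -/
def coordB (g : Gp) : Bool :=
  ord g * ord g == g.1.length &&
  g.1.all (fun u => Nat.blt (c0 g u) (ord g) && Nat.blt (c1 g u) (ord g) &&
    g.1.all (fun v => (u == v || c0 g u != c0 g v || c1 g u != c1 g v) &&
      adj g u v == (u != v && (c0 g u == c0 g v || c1 g u == c1 g v ||
        mul g (c0 g u) (c1 g u) == mul g (c0 g v) (c1 g v)))))

/-- the positions of the table -/
def cube (g : Gp) : List ℕ := List.range (ord g * ord g * ord g)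

/-- the multiplication table as a bit string -/
def tb (g : Gp) : List Bool :=
  (cube g).map (fun i => mul g (i / ord g / ord g) (i / ord g % ord g) == i % ord g)

section
variable {α : Type} [Enc α] {g : α → Gp} {u v w t : α → ℕ} {L : α → List ℕ}

@[fun_prop] theorem pt_adj (hg : PT g) (hu : PT u) (hv : PT v) :
    PT (fun a => adj (g a) (u a) (v a)) := by
  unfold adj; fun_prop

@[fun_prop] theorem pt_adj3 (hg : PT g) (hu : PT u) (hv : PT v) (hw : PT w) (ht : PT t) :
    PT (fun a => adj3 (g a) (u a) (v a) (w a) (t a)) := by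
  unfold adj3; fun_prop

@[fun_prop] theorem pt_col (hg : PT g) (hu : PT u) (hv : PT v) (hw : PT w) :
    PT (fun a => col (g a) (u a) (v a) (w a)) := by
  unfold col; fun_prop

@[fun_prop] theorem pt_lineR (hg : PT g) : PT (fun a => lineR (g a)) := by
  unfold lineR; fun_prop

@[fun_prop] theorem pt_lineC (hg : PT g) : PT (fun a => lineC (g a)) := by
  unfold lineC; fun_prop

@[fun_prop] theorem pt_same (hg : PT g) (hL : PT L) (hu : PT u) (hv : PT v) :
    PT (fun a => same (g a) (L a) (u a) (v a)) := by
  unfold same; fun_prop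

@[fun_prop] theorem pt_sameD (hg : PT g) (hu : PT u) (hv : PT v) :
    PT (fun a => sameD (g a) (u a) (v a)) := by
  unfold sameD; fun_prop

@[fun_prop] theorem pt_c0 (hg : PT g) (hu : PT u) : PT (fun a => c0 (g a) (u a)) := by
  unfold c0; fun_prop

@[fun_prop] theorem pt_c2 (hg : PT g) (hu : PT u) : PT (fun a => c2 (g a) (u a)) := by
  unfold c2; fun_prop

@[fun_prop] theorem pt_c1 (hg : PT g) (hu : PT u) : PT (fun a => c1 (g a) (u a)) := by
  unfold c1; fun_prop

@[fun_prop] theorem pt_mul (hg : PT g) (hu : PT u) (hv : PT v) :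
    PT (fun a => mul (g a) (u a) (v a)) := by
  unfold mul; fun_prop

@[fun_prop] theorem pt_ord (hg : PT g) : PT (fun a => ord (g a)) := by
  unfold ord; fun_prop

@[fun_prop] theorem pt_idx (hg : PT g) : PT (fun a => idx (g a)) :=
  PT.rangeLength (pt_lineR hg)

@[fun_prop] theorem pt_groupB (hg : PT g) : PT (fun a => groupB (g a)) := by
  unfold groupB; fun_prop

@[fun_prop] theorem pt_coordB (hg : PT g) : PT (fun a => coordB (g a)) := by
  unfold coordB; fun_prop

@[fun_prop] theorem pt_cube (hg : PT g) : PT (fun a => cube (g a)) := by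
  have h : PS (fun a => ord (g a)) :=
    (pt_lineR hg).size_le.mono (fun a => (length_lt_size _).le)
  exact PT.range (by fun_prop) ((h.mul h).mul h)

@[fun_prop] theorem pt_tb (hg : PT g) : PT (fun a => tb (g a)) := by
  unfold tb; fun_prop
end

end Pool.Agent.P.MP_f1a348_lc.LI
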