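import Pool.Agent.P.MP_f1a348_lc.LI.Lines

/-!
Completeness of the tests: the Latin square graph of a group of order at least five passes them.
-/

namespace Pool.Agent.P.MP_f1a348_lc.LI

variable {G : Type} {g : Gp} {co : Fin 3 → ℕ → G}

theorem Net.relabel (h : Net g co) {σ : Fin 3 → Fin 3} (hσ : Function.Bijective σ)
    (α : Fin 3 → G ≃ G) : Net g (fun l v => α l (co (σ l) v)) where
  adj u hu v hv := by
    rw [h.adj u hu v hv, hσ.2.exists]
    simp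
  inj i j hij u hu v hv a b :=
    h.inj _ _ (hσ.1.ne hij) u hu v hv ((α i).injective a) ((α j).injective b)
  surj i j hij x y := by
    obtain ⟨v, hv, a, b⟩ := h.surj _ _ (hσ.1.ne hij) ((α i).symm x) ((α j).symm y)
    exact ⟨v, hv, by simp [a], by simp [b]⟩
  big := h.big
  nodup := h.nodup
  zero := h.zero

variable [Group G]

theorem exists_conj (G : Type) [Group G] (i j : Fin 3) (hij : i ≠ j) :
    ∃ (σ : Fin 3 → Fin 3) (α : Fin 3 → G ≃ G), Function.Bijective σ ∧ σ 0 = i ∧ σ 1 = j ∧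
      ∀ c : Fin 3 → G, c 0 * c 1 = c 2 → α 0 (c (σ 0)) * α 1 (c (σ 1)) = α 2 (c (σ 2)) := by
  fin_cases i <;> fin_cases j <;> try exact absurd rfl hij
  · exact ⟨![0, 1, 2], ![1, 1, 1], by decide, rfl, rfl, fun c h => h⟩
  · exact ⟨![0, 2, 1], ![Equiv.inv G, 1, 1], by decide, rfl, rfl, fun c h => by simp [← h]⟩
  · exact ⟨![1, 0, 2], ![Equiv.inv G, Equiv.inv G, Equiv.inv G], by decide, rfl, rfl,
      fun c h => by simp [← h]⟩
  · exact ⟨![1, 2, 0], ![1, Equiv.inv G, Equiv.inv G], by decide, rfl, rfl,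
      fun c h => by simp [← h]⟩
  · exact ⟨![2, 0, 1], ![Equiv.inv G, 1, Equiv.inv G], by decide, rfl, rfl,
      fun c h => by simp [← h]⟩
  · exact ⟨![2, 1, 0], ![1, Equiv.inv G, 1], by decide, rfl, rfl, fun c h => by simp [← h]⟩

theorem Net.norm (h : Net g co) (hm : ∀ v, co 0 v * co 1 v = co 2 v) :
    ∃ co' : Fin 3 → ℕ → G, Net g co' ∧ (∀ v, co' 0 v * co' 1 v = co' 2 v) ∧
      co' 0 0 = 1 ∧ co' 1 0 = 1 ∧ (∀ w, w ∈ lineC g ↔ w ∈ g.1 ∧ co' 0 w = co' 0 0) ∧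
      (∀ w, w ∈ lineR g ↔ w ∈ g.1 ∧ co' 1 w = co' 1 0) := by
  obtain ⟨i, j, hij, hC, hR⟩ := h.exists_classes
  obtain ⟨σ, α, h1, rfl, rfl, h2⟩ := exists_conj G i j hij
  refine ⟨_, (h.relabel h1 α).relabel Function.bijective_id
    ![Equiv.mulLeft (α 0 (co (σ 0) 0))⁻¹, Equiv.mulRight (α 1 (co (σ 1) 0))⁻¹,
      (Equiv.mulRight (α 1 (co (σ 1) 0))⁻¹).trans (Equiv.mulLeft (α 0 (co (σ 0) 0))⁻¹)],
    fun v => ?_, by simp, by simp, fun w => by simp only [hC, Equiv.apply_eq_iff_eq, id],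
    fun w => by simp only [hR, Equiv.apply_eq_iff_eq, id]⟩
  simp [← h2 (fun l => co l v) (hm v), mul_assoc]

theorem Net.pass (h : Net g co) (hm : ∀ v, co 0 v * co 1 v = co 2 v)
    (hc : Nat.card G * Nat.card G = g.1.length) : groupB g = true ∧ coordB g = true := by
  obtain ⟨co, h, hm, z0, z1, hC, hR⟩ := h.norm hm
  have sC : ∀ u ∈ g.1, ∀ v ∈ g.1, same g (lineC g) u v = true ↔ co 0 u = co 0 v :=
    fun u hu v hv => h.same_iff hC hu hv
  have sR : ∀ u ∈ g.1, ∀ v ∈ g.1, same g (lineR g) u v = true ↔ co 1 u = co 1 v :=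
    fun u hu v hv => h.same_iff hR hu hv
  have sD : ∀ u ∈ g.1, ∀ v ∈ g.1, sameD g u v = true ↔ co 2 u = co 2 v := fun u hu v hv => by
    simp only [sameD, Bool.or_eq_true, beq_iff_eq, Bool.and_eq_true, Bool.not_eq_true',
      ← Bool.not_eq_true, sC u hu v hv, sR u hu v hv, h.adj u hu v hv]
    constructor
    · rintro (rfl | ⟨⟨⟨-, l, a⟩, b⟩, c⟩)
      · rfl
      · fin_cases l
        · exact absurd a c
        · exact absurd a b
        · exact a
    · intro a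
      by_cases e : u = v
      · exact Or.inl e
      · exact Or.inr ⟨⟨⟨e, 2, a⟩, fun b => e (h.inj 1 2 (by decide) u hu v hv b a)⟩,
          fun b => e (h.inj 0 2 (by decide) u hu v hv b a)⟩
  rw [z0] at hC
  rw [z1] at hR
  have nd : (lineR g).Nodup := h.nodup.filter _
  have hmem : ∀ a : Fin (ord g), (lineR g)[a.1] ∈ g.1 ∧ co 1 (lineR g)[a.1] = 1 :=
    fun a => (hR _).1 (List.getElem_mem _)
  have hb : Function.Bijective (fun a : Fin (ord g) => co 0 (lineR g)[a.1]) := by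
    refine ⟨fun a b e => Fin.ext (nd.getElem_inj_iff.1 (h.inj 0 1 (by decide) _ (hmem a).1 _
      (hmem b).1 e ((hmem a).2.trans (hmem b).2.symm))), fun x => ?_⟩
    obtain ⟨v, hv, a, b⟩ := h.surj 0 1 (by decide) x 1
    obtain ⟨i, hi, rfl⟩ := List.getElem_of_mem ((hR v).2 ⟨hv, b⟩)
    exact ⟨⟨i, hi⟩, a⟩
  let e : Fin (ord g) ≃ G := Equiv.ofBijective _ hb
  have he : ∀ a : Fin (ord g), e a = co 0 (lineR g)[a.1] := fun _ => rfl
  have hidx : ∀ (x : G) (p : ℕ → Bool), (∀ w ∈ g.1, co 1 w = 1 → (p w = true ↔ x = co 0 w)) →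
      (lineR g).findIdx p = e.symm x := by
    intro x p hp
    rw [List.findIdx_eq (e.symm x).2]
    refine ⟨(hp _ (hmem _).1 (hmem _).2).2 (by rw [← he]; simp), fun j hj => ?_⟩
    have hj' : j < ord g := hj.trans (e.symm x).2
    rw [← Bool.not_eq_true, hp _ (hmem ⟨j, hj'⟩).1 (hmem ⟨j, hj'⟩).2, ← he]
    rintro rfl
    simp at hj
  have k0 : ∀ v ∈ g.1, c0 g v = e.symm (co 0 v) := fun v hv =>
    hidx _ _ fun w hw _ => sC v hv w hw
  have k2 : ∀ v ∈ g.1, c2 g v = e.symm (co 2 v) := fun v hv =>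
    hidx _ _ fun w hw w1 => by rw [sD v hv w hw, ← hm w, w1, mul_one]
  have k1 : ∀ v ∈ g.1, c1 g v = e.symm (co 1 v) := fun v hv => by
    obtain ⟨q, hq, q0, q1⟩ := h.surj 0 1 (by decide) 1 (co 1 v)
    obtain ⟨a, b⟩ := find_spec (l := lineC g) (p := same g (lineR g) v)
      ⟨q, (hC q).2 ⟨hq, q0⟩, (sR v hv q hq).2 q1.symm⟩
    obtain ⟨a1, a2⟩ := (hC _).1 a
    rw [c1, k2 _ a1, ← hm, a2, one_mul, (sR v hv _ a1).1 b]
  have km : ∀ x y : G, mul g (e.symm x) (e.symm y) = e.symm (x * y) := fun x y => by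
    obtain ⟨q, hq, q0, q1⟩ := h.surj 0 1 (by decide) x y
    obtain ⟨a, b⟩ := find_spec (l := g.1)
      (p := fun v => c0 g v == (e.symm x).1 && c1 g v == (e.symm y).1)
      ⟨q, hq, by simp [k0 q hq, k1 q hq, q0, q1]⟩
    rw [Bool.and_eq_true, beq_iff_eq, beq_iff_eq, k0 _ a, k1 _ a, Fin.val_inj, Fin.val_inj,
      e.symm.apply_eq_iff_eq, e.symm.apply_eq_iff_eq] at b
    rw [mul, k2 _ a, ← hm, b.1, b.2]
  have hs : ∀ a < ord g, ∃ x, a = (e.symm x).1 := fun a ha => ⟨e ⟨a, ha⟩, by simp⟩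
  constructor
  · simp only [groupB, idx, Bool.and_eq_true, List.all_eq_true, List.any_eq_true, List.mem_range,
      Nat.blt_eq, beq_iff_eq]
    refine ⟨fun a ha b hb => ?_, e.symm 1, (e.symm 1).2, fun a ha => ?_⟩
    · obtain ⟨x, rfl⟩ := hs a ha
      obtain ⟨y, rfl⟩ := hs b hb
      refine ⟨by rw [km]; exact (e.symm _).2, fun c hc => ?_⟩
      obtain ⟨z, rfl⟩ := hs c hc
      simp only [km, mul_assoc]
    · obtain ⟨x, rfl⟩ := hs a ha
      exact ⟨by rw [km, one_mul], e.symm x⁻¹, (e.symm _).2, by rw [km, inv_mul_cancel]⟩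
  · simp only [coordB, Bool.and_eq_true, List.all_eq_true, Nat.blt_eq, beq_iff_eq,
      Bool.or_eq_true, bne_iff_ne]
    refine ⟨by rw [← hc, ← Nat.card_congr e, Nat.card_fin], fun u hu =>
      ⟨⟨by rw [k0 u hu]; exact (e.symm _).2, by rw [k1 u hu]; exact (e.symm _).2⟩,
        fun v hv => ⟨?_, ?_⟩⟩⟩
    · by_contra hn
      simp only [k0 u hu, k0 v hv, k1 u hu, k1 v hv, not_or, ne_eq, not_not, Fin.val_inj,
        e.symm.apply_eq_iff_eq] at hn
      exact hn.1.1 (h.inj 0 1 (by decide) u hu v hv hn.1.2 hn.2)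
    · rw [Bool.eq_iff_iff, h.adj u hu v hv, k0 u hu, k0 v hv, k1 u hu, k1 v hv, km, km, hm, hm]
      simp [Fin.exists_fin_succ, Fin.val_inj, or_assoc]

end Pool.Agent.P.MP_f1a348_lc.LI
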