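import Mathlib

/-!
Latin square graphs of groups and adjacency matrices.
-/

namespace Pool.Agent.P.MP_f1a348_lc.LI

/-- the Latin square graph of a group: the vertices are the cells `(a, b)` of the multiplication
table, two different cells being adjacent if they lie in the same row, lie in the same column or
hold the same entry -/
def latinGraph (G : Type) [Group G] : SimpleGraph (G × G) where
  Adj p q := p ≠ q ∧ (p.1 = q.1 ∨ p.2 = q.2 ∨ p.1 * p.2 = q.1 * q.2)
  symm := ⟨fun _ _ h => ⟨h.1.symm, h.2.imp Eq.symm (Or.imp Eq.symm Eq.symm)⟩⟩
  loopless := ⟨fun _ h => h.1 rfl⟩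

/-- `X` is isomorphic to the Latin square graph of some group -/
def IsGroupLatin {V : Type} (X : SimpleGraph V) : Prop :=
  ∃ (G : Type) (_ : Group G), Nonempty (X ≃g latinGraph G)

open Classical in
/-- the adjacency matrix, row by row: the bit number `u * n + v` tells if `u` and `v` are
adjacent -/
noncomputable def adjBits {n : ℕ} (X : SimpleGraph (Fin n)) : List Bool :=
  List.ofFn fun x : Fin (n * n) => decide (X.Adj x.divNat x.modNat)

end Pool.Agent.P.MP_f1a348_lc.LI
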