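import Pool.Agent.P.MP_f1a348_lc.LI.Alg

/-!
The lines of a 3-net with at least five points on a line are recovered from its collinearity
graph.
-/

namespace Pool.Agent.P.MP_f1a348_lc.LI

variable {G : Type} {g : Gp} {co : Fin 3 → ℕ → G}

/-- the graph is the collinearity graph of the 3-net with coordinates `co` -/
structure Net (g : Gp) (co : Fin 3 → ℕ → G) : Prop where
  adj : ∀ u ∈ g.1, ∀ v ∈ g.1, adj g u v = true ↔ u ≠ v ∧ ∃ i, co i u = co i v
  inj : ∀ i j, i ≠ j → ∀ u ∈ g.1, ∀ v ∈ g.1, co i u = co i v → co j u = co j v → u = v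
  surj : ∀ i j, i ≠ j → ∀ x y, ∃ v ∈ g.1, co i v = x ∧ co j v = y
  big : ∀ a b c : G, ∃ x y, x ≠ y ∧ (x ≠ a ∧ x ≠ b ∧ x ≠ c) ∧ (y ≠ a ∧ y ≠ b ∧ y ≠ c)
  nodup : g.1.Nodup
  zero : 0 ∈ g.1

theorem find_spec {l : List ℕ} {p : ℕ → Bool} (h : ∃ v ∈ l, p v = true) :
    (l.find? p).getD 0 ∈ l ∧ p ((l.find? p).getD 0) = true := by
  cases e : l.find? p with
  | none =>
    obtain ⟨v, h1, h2⟩ := h
    exact absurd h2 (List.find?_eq_none.1 e v h1)
  | some a => exact ⟨List.mem_of_find?_eq_some e, List.find?_some e⟩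

theorem ne_succ (m : Fin 3) : m ≠ m + 1 := by revert m; decide

theorem Net.col_iff (h : Net g co) {m : Fin 3} {u v w : ℕ} (hu : u ∈ g.1) (hv : v ∈ g.1)
    (hw : w ∈ g.1) (huv : u ≠ v) (hm : co m u = co m v) :
    col g u v w = true ↔ co m w = co m u := by
  simp only [col, adj3, Bool.or_eq_true, beq_iff_eq, Bool.and_eq_true, List.any_eq_true,
    bne_iff_ne]
  constructor
  · rintro ((rfl | rfl) | ⟨⟨a1, a2⟩, s, hs, t, ht, ⟨hst, hs'⟩, ht'⟩)
    · rfl
    · exact hm.symm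
    by_contra hc
    obtain ⟨-, i, hi⟩ := (h.adj u hu w hw).1 a1
    obtain ⟨-, j, hj⟩ := (h.adj v hv w hw).1 a2
    have im : i ≠ m := fun e => hc (e ▸ hi.symm)
    have jm : j ≠ m := fun e => hc ((e ▸ hj.symm :).trans hm.symm)
    have ij : i ≠ j := fun e => huv (h.inj i m im u hu v hv (hi.trans (e ▸ hj.symm)) hm)
    have key : ∀ s ∈ g.1, (LI.adj g u s = true ∧ LI.adj g v s = true) ∧ LI.adj g w s = true →
        co j s = co j u ∧ co i s = co i v := by
      rintro s hs ⟨⟨b1, b2⟩, b3⟩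
      obtain ⟨n1, a, ha⟩ := (h.adj u hu s hs).1 b1
      obtain ⟨n2, b, hb⟩ := (h.adj v hv s hs).1 b2
      obtain ⟨n3, c, hc'⟩ := (h.adj w hw s hs).1 b3
      have off : co m s ≠ co m u := fun e => by
        have c1 : c ≠ m := fun e' => hc ((e' ▸ hc' :).trans e)
        have c2 : c ≠ i := fun e' =>
          n1 (h.inj i m im u hu s hs (hi.trans (e' ▸ hc')) e.symm)
        have c3 : c ≠ j := fun e' =>
          n2 (h.inj j m jm v hv s hs (hj.trans (e' ▸ hc')) (hm.symm.trans e.symm))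
        omega
      have am : a ≠ m := fun e => off (e ▸ ha.symm)
      have bm : b ≠ m := fun e => off ((e ▸ hb.symm :).trans hm.symm)
      have ab : a ≠ b := fun e => huv (h.inj a m am u hu v hv (ha.trans (e ▸ hb.symm)) hm)
      by_cases ai : a = i
      · have bj : b = j := by omega
        exact absurd (h.inj i j ij w hw s hs (hi.symm.trans (ai ▸ ha))
          (hj.symm.trans (bj ▸ hb))) n3
      · have aj : a = j := by omega
        have bi : b = i := by omega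
        exact ⟨aj ▸ ha.symm, bi ▸ hb.symm⟩
    have k1 := key s hs hs'
    have k2 := key t ht ht'
    exact hst (h.inj i j ij s hs t ht (k1.2.trans k2.2.symm) (k1.1.trans k2.1.symm))
  · intro hw'
    by_cases e1 : w = u
    · exact Or.inl (Or.inl e1)
    by_cases e2 : w = v
    · exact Or.inl (Or.inr e2)
    have hne := ne_succ m
    obtain ⟨x, y, hxy, hx, hy⟩ := h.big (co (m + 1) u) (co (m + 1) v) (co (m + 1) w)
    obtain ⟨s, hs, s1, rfl⟩ := h.surj _ _ hne (co m u) x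
    obtain ⟨t, ht, t1, rfl⟩ := h.surj _ _ hne (co m u) y
    have key : ∀ s ∈ g.1, co m s = co m u → ∀ p ∈ g.1, co m p = co m u →
        co (m + 1) s ≠ co (m + 1) p → LI.adj g p s = true := fun s hs s1 p hp p1 n =>
      (h.adj p hp s hs).2 ⟨fun e => n (by rw [e]), m, p1.trans s1.symm⟩
    refine Or.inr ⟨⟨(h.adj u hu w hw).2 ⟨Ne.symm e1, m, hw'.symm⟩,
      (h.adj v hv w hw).2 ⟨Ne.symm e2, m, (hw'.trans hm).symm⟩⟩, s, hs, t, ht,
      ⟨fun e => hxy (by rw [e]), ⟨key s hs s1 u hu rfl hx.1, key s hs s1 v hv hm.symm hx.2.1⟩,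
        key s hs s1 w hw hw' hx.2.2⟩,
      ⟨key t ht t1 u hu rfl hy.1, key t ht t1 v hv hm.symm hy.2.1⟩, key t ht t1 w hw hw' hy.2.2⟩

theorem Net.same_iff (h : Net g co) {k : Fin 3} {L : List ℕ}
    (hL : ∀ w, w ∈ L ↔ w ∈ g.1 ∧ co k w = co k 0) {u v : ℕ} (hu : u ∈ g.1) (hv : v ∈ g.1) :
    same g L u v = true ↔ co k u = co k v := by
  simp only [same, Bool.or_eq_true, beq_iff_eq, Bool.and_eq_true, Bool.not_eq_true',
    List.any_eq_false, List.all_eq_true]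
  by_cases huv : u = v
  · simp [huv]
  constructor
  · rintro (e | ⟨a, b⟩)
    · exact absurd e huv
    obtain ⟨-, m, hm⟩ := (h.adj u hu v hv).1 a
    by_contra hc
    have km : k ≠ m := fun e => hc (e ▸ hm)
    rcases b with b | b
    · obtain ⟨w, hw, w1, w2⟩ := h.surj _ _ km (co k 0) (co m u)
      exact b w ((hL w).2 ⟨hw, w1⟩) ((h.col_iff hu hv hw huv hm).2 w2)
    · obtain ⟨x, -, -, hx, -⟩ := h.big (co m u) (co m u) (co m u)
      obtain ⟨w, hw, w1, w2⟩ := h.surj _ _ km (co k 0) x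
      exact hx.1 (w2.symm.trans ((h.col_iff hu hv hw huv hm).1 (b w ((hL w).2 ⟨hw, w1⟩))))
  · intro hk
    refine Or.inr ⟨(h.adj u hu v hv).2 ⟨huv, k, hk⟩, ?_⟩
    by_cases e : co k 0 = co k u
    · exact Or.inr fun w hw =>
        (h.col_iff hu hv ((hL w).1 hw).1 huv hk).2 (((hL w).1 hw).2.trans e)
    · exact Or.inl fun w hw hc =>
        e (((hL w).1 hw).2.symm.trans ((h.col_iff hu hv ((hL w).1 hw).1 huv hk).1 hc))

theorem Net.exists_classes (h : Net g co) : ∃ i j : Fin 3, i ≠ j ∧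
    (∀ w, w ∈ lineC g ↔ w ∈ g.1 ∧ co i w = co i 0) ∧
    (∀ w, w ∈ lineR g ↔ w ∈ g.1 ∧ co j w = co j 0) := by
  have nb : ∀ i j : Fin 3, i ≠ j → ∃ w ∈ g.1, LI.adj g 0 w = true ∧ co j w ≠ co j 0 := by
    intro i j hij
    obtain ⟨x, -, -, hx, -⟩ := h.big (co j 0) (co j 0) (co j 0)
    obtain ⟨w, hw, w1, rfl⟩ := h.surj i j hij (co i 0) x
    exact ⟨w, hw, (h.adj 0 h.zero w hw).2 ⟨fun e => hx.1 (by rw [← e]), i, w1.symm⟩, hx.1⟩
  obtain ⟨a1, a2⟩ := find_spec (l := g.1) (p := LI.adj g 0)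
    ((nb 0 1 (by decide)).imp fun w hw => ⟨hw.1, hw.2.1⟩)
  obtain ⟨a3, j, hj⟩ := (h.adj 0 h.zero _ a1).1 a2
  have hR : ∀ w, w ∈ lineR g ↔ w ∈ g.1 ∧ co j w = co j 0 := fun w => by
    rw [lineR, List.mem_filter]
    exact and_congr_right fun hw => h.col_iff h.zero a1 hw a3 hj
  obtain ⟨b1, b2⟩ := find_spec (l := g.1) (p := fun w => LI.adj g 0 w && !(lineR g).contains w)
    ((nb (j + 1) j (ne_succ j).symm).imp fun w hw => ⟨hw.1, by simp [hw.2.1, hR, hw.2.2]⟩)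
  rw [Bool.and_eq_true, Bool.not_eq_true', List.contains_eq_mem, decide_eq_false_iff_not,
    hR] at b2
  obtain ⟨b3, i, hi⟩ := (h.adj 0 h.zero _ b1).1 b2.1
  refine ⟨i, j, fun e => b2.2 ⟨b1, e ▸ hi.symm⟩, fun w => ?_, hR⟩
  rw [lineC, List.mem_filter]
  exact and_congr_right fun hw => h.col_iff h.zero b1 hw b3 hi

end Pool.Agent.P.MP_f1a348_lc.LI
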