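import Pool.Agent.P.MP_f1a348_lc.LI.Red
import Pool.Agent.P.MP_f1a348_lc.GI.All

/-!
The reduction followed by the group isomorphism test; running time.
-/

namespace Pool.Agent.P.MP_f1a348_lc.LI

open Pool.Agent.Lib.Helper47 Pool.Agent.Lib.Helper33 Pool.Agent.P.MP_f1a348_lc.GI

theorem one_le_qp {ε : ℝ} (hε : 0 < ε) (n : ℕ) : 1 ≤ (n : ℝ) ^ (ε * Real.logb 2 n) := by
  rcases Nat.eq_zero_or_pos n with rfl | hn
  · simp
  · have h : (1 : ℝ) ≤ n := by exact_mod_cast hn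
    exact Real.one_le_rpow h (mul_nonneg hε.le (Real.logb_nonneg one_lt_two h))

theorem qp_mono {ε : ℝ} (hε : 0 < ε) {m n : ℕ} (hm : 0 < m) (h : m ≤ n) :
    (m : ℝ) ^ (ε * Real.logb 2 m) ≤ (n : ℝ) ^ (ε * Real.logb 2 n) := by
  have h1 : (1 : ℝ) ≤ m := by exact_mod_cast hm
  have h2 : (m : ℝ) ≤ n := by exact_mod_cast h
  refine (Real.rpow_le_rpow (by positivity) h2
    (mul_nonneg hε.le (Real.logb_nonneg one_lt_two h1))).trans ?_
  exact Real.rpow_le_rpow_of_exponent_le (h1.trans h2)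
    (mul_le_mul_of_nonneg_left (Real.logb_le_logb_of_le one_lt_two (by positivity) h2) hε.le)

theorem poly_le_qp {ε : ℝ} (hε : 0 < ε) (p : Polynomial ℕ) : ∃ C : ℝ, ∀ n : ℕ,
    ((p.eval (2 * (n * n)) : ℕ) : ℝ) ≤ C * (n : ℝ) ^ (ε * Real.logb 2 n) := by
  obtain ⟨c, d, hp⟩ := poly_le_pow p
  obtain ⟨M, -, hM⟩ := time_bound 1 hε
  obtain ⟨C, hC⟩ := hM (3 * d)
  refine ⟨c * max C 1, fun n => ?_⟩
  have h1 : p.eval (2 * (n * n)) ≤ c * (n + 1) ^ (1 * (2 * Nat.log M n + 3 * d)) := by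
    refine (hp _).trans (Nat.mul_le_mul_left c ?_)
    calc (2 * (n * n) + 1) ^ d ≤ ((n + 1) ^ 3) ^ d :=
          Nat.pow_le_pow_left (by nlinarith [Nat.zero_le (n ^ 3), Nat.zero_le (n * n)]) d
      _ = (n + 1) ^ (3 * d) := by rw [pow_mul]
      _ ≤ _ := Nat.pow_le_pow_right (Nat.succ_pos n) (by omega)
  have h2 : (((n + 1) ^ (1 * (2 * Nat.log M n + 3 * d)) : ℕ) : ℝ) ≤
      max C 1 * (n : ℝ) ^ (ε * Real.logb 2 n) := by
    rcases Nat.eq_zero_or_pos n with rfl | hn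
    · simp
    · exact (hC n hn).trans (mul_le_mul_of_nonneg_right (le_max_left _ _) (by positivity))
  calc ((p.eval (2 * (n * n)) : ℕ) : ℝ)
      ≤ c * (((n + 1) ^ (1 * (2 * Nat.log M n + 3 * d)) : ℕ) : ℝ) := by exact_mod_cast h1
    _ ≤ c * (max C 1 * (n : ℝ) ^ (ε * Real.logb 2 n)) :=
        mul_le_mul_of_nonneg_left h2 (Nat.cast_nonneg c)
    _ = _ := by ring

open Classical in
theorem main : ∃ M : BTM, ∀ ε : ℝ, 0 < ε → ∃ C : ℝ, ∀ (n : ℕ) (X Y : SimpleGraph (Fin n)),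
    ∃ t : ℕ, (t : ℝ) ≤ C * (n : ℝ) ^ (ε * Real.logb 2 n) ∧
      M.Out (adjBits X ++ adjBits Y) [decide (IsGroupLatin X ∧ Nonempty (X ≃g Y))] t := by
  obtain ⟨M₂, h₂⟩ := main_of all_plan all_exec
  have hx : PB List.length (fun x : List Bool => size x) :=
    (((PB.const 4).mul PB.self).add (PB.const 1)).mono (fun a => size_bits_le _)
  obtain ⟨M₁, t₁, a1, a2, h₁⟩ := (RT.of_PT (x := fun x => x) pt_red hx).exists_btm PB.self
  obtain ⟨p, hp⟩ := (a1.add ((PB.const 2).mul a2)).add (PB.const 2)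
  refine ⟨M₁.comp M₂, fun ε hε => ?_⟩
  obtain ⟨C₁, hC₁⟩ := poly_le_qp hε p
  obtain ⟨C₂, hC₂⟩ := h₂ ε hε
  refine ⟨C₁ + max C₂ 0 * ((4 : ℕ) : ℝ) ^ (ε * Real.logb 2 (4 : ℕ)), fun n X Y => ?_⟩
  obtain ⟨G, H, _, _, N, e, e', b1, b2, b3⟩ := red_spec X Y
  obtain ⟨t₂, c1, c2⟩ := hC₂ G H N e e'
  rw [← b1, decide_eq_decide.2 b3] at c2
  refine ⟨_, ?_, (h₁ _).comp c2⟩
  have d1 := hp (adjBits X ++ adjBits Y)
  rw [show (adjBits X ++ adjBits Y).length = 2 * (n * n) by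
    rw [List.length_append, length_adjBits, length_adjBits]; ring] at d1
  have d2 : ((t₁ (adjBits X ++ adjBits Y) + 2 * (red (adjBits X ++ adjBits Y)).length + 2 : ℕ) :
      ℝ) ≤ C₁ * (n : ℝ) ^ (ε * Real.logb 2 n) := le_trans (by exact_mod_cast d1) (hC₁ n)
  have d3 : (N : ℝ) ^ (ε * Real.logb 2 N) ≤
      ((4 : ℕ) : ℝ) ^ (ε * Real.logb 2 (4 : ℕ)) * (n : ℝ) ^ (ε * Real.logb 2 n) := by
    rcases b2 with h | rfl
    · exact (qp_mono hε (Fin.pos (e.symm 1)) h).trans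
        (le_mul_of_one_le_left (by positivity) (one_le_qp hε 4))
    · exact le_mul_of_one_le_right (by positivity) (one_le_qp hε n)
  have d4 : (t₂ : ℝ) ≤ max C₂ 0 * (((4 : ℕ) : ℝ) ^ (ε * Real.logb 2 (4 : ℕ)) *
      (n : ℝ) ^ (ε * Real.logb 2 n)) :=
    (c1.trans (mul_le_mul_of_nonneg_right (le_max_left _ _) (by positivity))).trans
      (mul_le_mul_of_nonneg_left d3 (le_max_right _ _))
  push_cast at d2 d4 ⊢
  linarith

end Pool.Agent.P.MP_f1a348_lc.LI
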