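import Pool.Agent.P.MP_f1a348_lc.LI.Alg
import Pool.Agent.P.MP_f1a348_lc.LI.Defs
import Pool.Agent.P.MP_f1a348_lc.GI.Prog

/-!
Soundness of the tests: a graph that passes them is the Latin square graph of the group whose
table was read off.
-/

namespace Pool.Agent.P.MP_f1a348_lc.LI

open Pool.Agent.P.MP_f1a348_lc.GI

theorem exists_group (N : ℕ) (m : ℕ → ℕ → ℕ) (h1 : ∀ a < N, ∀ b < N, m a b < N)
    (h2 : ∀ a < N, ∀ b < N, ∀ c < N, m (m a b) c = m a (m b c)) (z : ℕ) (hz : z < N)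
    (h3 : ∀ a < N, m z a = a) (h4 : ∀ a < N, ∃ b < N, m b a = z) :
    ∃ (G : Type) (_ : Group G) (e : Fin N ≃ G),
      ∀ a b c : Fin N, e a * e b = e c ↔ m a b = c := by
  choose! i hi1 hi2 using h4
  let _ : Mul {a : ℕ // a < N} := ⟨fun a b => ⟨m a b, h1 _ a.2 _ b.2⟩⟩
  let _ : One {a : ℕ // a < N} := ⟨⟨z, hz⟩⟩
  let _ : Inv {a : ℕ // a < N} := ⟨fun a => ⟨i a, hi1 _ a.2⟩⟩
  let _ : Group {a : ℕ // a < N} := Group.ofLeftAxioms
    (fun a b c => Subtype.ext (h2 _ a.2 _ b.2 _ c.2)) (fun a => Subtype.ext (h3 _ a.2))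
    (fun a => Subtype.ext (hi2 _ a.2))
  exact ⟨{a : ℕ // a < N}, inferInstance, Fin.equivSubtype, fun a b c => Subtype.ext_iff⟩

theorem sound (g : Gp) (n : ℕ) (hV : g.1 = List.range n) (X : SimpleGraph (Fin n))
    (hX : ∀ u v : Fin n, adj g u v = true ↔ X.Adj u v) (h1 : groupB g = true)
    (h2 : coordB g = true) :
    ∃ (G : Type) (_ : Group G) (e : Fin (ord g) ≃ G), tb g = tbits e ∧
      Nonempty (X ≃g latinGraph G) ∧ ord g * ord g = n := by
  simp only [groupB, idx, Bool.and_eq_true, List.all_eq_true, List.any_eq_true, List.mem_range,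
    Nat.blt_eq, beq_iff_eq] at h1
  obtain ⟨h1, z, hz, h3⟩ := h1
  obtain ⟨G, _, e, he⟩ := exists_group (ord g) (mul g) (fun a ha b hb => (h1 a ha b hb).1)
    (fun a ha b hb => (h1 a ha b hb).2) z hz (fun a ha => (h3 a ha).1) (fun a ha => (h3 a ha).2)
  simp only [coordB, hV, Bool.and_eq_true, List.all_eq_true, List.mem_range, List.length_range,
    Nat.blt_eq, beq_iff_eq, Bool.or_eq_true, bne_iff_ne] at h2
  obtain ⟨hn, h2⟩ := h2
  refine ⟨G, inferInstance, e, ?_, ?_, hn⟩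
  · refine List.ext_getElem (by simp [tb, cube, tbits]) (fun i h h' => ?_)
    simp only [tb, cube, tbits, List.getElem_map, List.getElem_range, List.getElem_ofFn, he]
    rw [Bool.eq_iff_iff]
    simp
  · let f : Fin n → G × G := fun v =>
      (e ⟨c0 g v, (h2 v v.2).1.1⟩, e ⟨c1 g v, (h2 v v.2).1.2⟩)
    have hf : Function.Injective f := fun u v h => by
      have a := congrArg Prod.fst h
      have b := congrArg Prod.snd h
      simp only [f, e.apply_eq_iff_eq, Fin.mk.injEq] at a b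
      rcases ((h2 u u.2).2 v v.2).1 with (h | h) | h
      · exact Fin.ext h
      · exact absurd a h
      · exact absurd b h
    have : Finite G := Finite.of_equiv _ e
    have hb : Function.Bijective f := hf.bijective_of_nat_card_le (by
      rw [Nat.card_prod, ← Nat.card_congr e, Nat.card_fin, Nat.card_fin, hn])
    refine ⟨⟨Equiv.ofBijective f hb, fun {u v} => ?_⟩⟩
    have hm : ∀ w : Fin n, (f w).1 * (f w).2 =
        e ⟨mul g (c0 g w) (c1 g w), (h1 _ (h2 w w.2).1.1 _ (h2 w w.2).1.2).1⟩ :=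
      fun w => (he _ _ _).2 rfl
    rw [← hX, ((h2 u u.2).2 v v.2).2]
    change (f u ≠ f v ∧ ((f u).1 = (f v).1 ∨ (f u).2 = (f v).2 ∨
      (f u).1 * (f u).2 = (f v).1 * (f v).2)) ↔ _
    rw [hf.ne_iff, hm, hm]
    simp [f, Fin.ext_iff, or_assoc]

end Pool.Agent.P.MP_f1a348_lc.LI
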