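import Pool.Agent.P.MP_f1a348_lc.LI.Compl
import Pool.Agent.P.MP_f1a348_lc.LI.Sound
import Pool.Agent.P.MP_f1a348_lc.Gr.Latin

/-!
The polynomial-time reduction to group isomorphism.
-/

namespace Pool.Agent.P.MP_f1a348_lc.LI

open Pool.Agent.Lib.Helper47 Pool.Agent.P.MP_f1a348_lc.GI Pool.Agent.P.MP_f1a348_lc.Gr

theorem latin_eq (G : Type) [Group G] : latinGraph G = netGraph (tab G) := by
  ext p q
  simp [latinGraph, netGraph, tab, Fin.exists_fin_succ]

theorem iso_iff {G H : Type} [Group G] [Group H] [Finite G] [Finite H]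
    (hc : Nat.card G = Nat.card H) (h5 : 5 ≤ Nat.card G) :
    Nonempty (G ≃* H) ↔ Nonempty (latinGraph G ≃g latinGraph H) := by
  refine ⟨fun ⟨f⟩ => ⟨⟨f.toEquiv.prodCongr f.toEquiv, fun {p q} => ?_⟩⟩, fun ⟨ψ⟩ => ?_⟩
  · simp [latinGraph, ← map_mul, Prod.ext_iff]
  · rw [latin_eq, latin_eq] at ψ
    exact mulEquiv_of_iso hc h5 ψ

theorem complete (g : Gp) (n : ℕ) (hV : g.1 = List.range n) (X : SimpleGraph (Fin n))
    (hX : ∀ u v : Fin n, adj g u v = true ↔ X.Adj u v) (hn : 17 ≤ n) (h : IsGroupLatin X) :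
    groupB g = true ∧ coordB g = true := by
  classical
  obtain ⟨G, _, ⟨ψ⟩⟩ := h
  have hc : Nat.card G * Nat.card G = n := by
    rw [← Nat.card_prod, ← Nat.card_congr ψ.toEquiv, Nat.card_fin]
  have h5 : 5 ≤ Nat.card G := by
    by_contra h
    have : Nat.card G * Nat.card G ≤ 4 * 4 := Nat.mul_le_mul (by omega) (by omega)
    omega
  have : Finite G := Nat.finite_of_card_ne_zero (by omega)
  let _ : Fintype G := Fintype.ofFinite G
  rw [latin_eq] at ψ
  let co : Fin 3 → ℕ → G := fun l v => if h : v < n then tab G l (ψ ⟨v, h⟩) else 1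
  have hco : ∀ l (v : Fin n), co l v = tab G l (ψ v) := fun l v => dif_pos v.2
  have hmem : ∀ v ∈ g.1, ∃ w : Fin n, v = w := fun v hv =>
    ⟨⟨v, List.mem_range.1 (hV ▸ hv)⟩, rfl⟩
  refine Net.pass (co := co) ⟨fun u hu v hv => ?_, fun i j hij u hu v hv => ?_,
    fun i j hij x y => ?_, fun a b c => ?_, hV ▸ List.nodup_range,
    hV ▸ List.mem_range.2 (by omega)⟩ (fun v => ?_) (by rw [hV, List.length_range, hc])
  · obtain ⟨u, rfl⟩ := hmem u hu
    obtain ⟨v, rfl⟩ := hmem v hv
    rw [hX, ← ψ.map_adj_iff]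
    simp only [netGraph, hco, ne_eq, Fin.val_inj, EmbeddingLike.apply_eq_iff_eq]
  · obtain ⟨u, rfl⟩ := hmem u hu
    obtain ⟨v, rfl⟩ := hmem v hv
    simp only [hco]
    exact fun a b => congrArg Fin.val (ψ.injective (isNet_tab.inj i j hij _ _ a b))
  · obtain ⟨p, a, b⟩ := (isNet_tab (G := G)).surj i j hij x y
    obtain ⟨v, rfl⟩ := ψ.surjective p
    exact ⟨v, hV ▸ List.mem_range.2 v.2, by rw [hco, a], by rw [hco, b]⟩
  · have h1 : 1 < (Finset.univ \ ({a, b, c} : Finset G)).card := by
      have h2 := Finset.le_card_sdiff ({a, b, c} : Finset G) Finset.univ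
      have h3 : ({a, b, c} : Finset G).card ≤ 3 := Finset.card_le_three
      rw [Finset.card_univ, ← Nat.card_eq_fintype_card] at h2
      omega
    obtain ⟨x, y, hx, hy, hxy⟩ := Finset.one_lt_card_iff.1 h1
    exact ⟨x, y, hxy, by simpa [not_or] using hx, by simpa [not_or] using hy⟩
  · by_cases hv : v < n
    · simp [co, hv, tab]
    · simp [co, hv]

/-- the number of vertices, read off from the length of the input -/
def vn (x : List Bool) : ℕ :=
  (List.range x.length).countP (fun m => Nat.ble (2 * ((m + 1) * (m + 1))) x.length)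

/-- the first graph -/
def gX (x : List Bool) : Gp := (List.range (vn x), x)

/-- the second graph -/
def gY (x : List Bool) : Gp := (List.range (vn x), x.drop (vn x * vn x))

/-- the language to be decided -/
def truth (x : List Bool) : Prop :=
  ∃ (n : ℕ) (X Y : SimpleGraph (Fin n)), x = adjBits X ++ adjBits Y ∧
    IsGroupLatin X ∧ Nonempty (X ≃g Y)

open Classical in
/-- the short words of the language -/
noncomputable def smallB (x : List Bool) : Bool := decide (x.length ≤ 512 ∧ truth x)

/-- a numbering of the cyclic group of order four -/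
noncomputable def e4 : Fin 4 ≃ Multiplicative (ZMod 4) :=
  (Fintype.equivFinOfCardEq (by simp)).symm

/-- a numbering of the Klein group -/
noncomputable def e22 : Fin 4 ≃ Multiplicative (ZMod 2 × ZMod 2) :=
  (Fintype.equivFinOfCardEq (by simp)).symm

/-- both graphs are large and pass the tests -/
def passB (x : List Bool) : Bool :=
  Nat.blt 512 x.length && (groupB (gX x) && coordB (gX x)) && (groupB (gY x) && coordB (gY x))

/-- the reduction -/
noncomputable def red (x : List Bool) : List Bool :=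
  bif smallB x then tbits e4 ++ tbits e4 else
    bif passB x then tb (gX x) ++ tb (gY x) else tbits e4 ++ tbits e22

theorem pt_red : PT red := by
  have h0 := PT.rangeLength (PT.id (α := List Bool))
  have h1 : PT vn := by unfold vn; fun_prop
  have h2 : PT (fun x => List.range (vn x)) :=
    PT.range_of_le h1 PT.id (fun x => List.countP_le_length.trans (by simp))
  have h3 : PT gX := by unfold gX; fun_prop
  have h4 : PT gY := by unfold gY; fun_prop
  have h5 : PT smallB := PT.of_table _ (List.finite_length_le Bool 512).toFinset.toList false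
    (fun x hx => by
      simp only [Finset.mem_toList, Set.Finite.mem_toFinset, Set.mem_ofPred_eq] at hx
      simp [smallB, hx])
  have h6 : PT passB := by unfold passB; fun_prop
  unfold red; fun_prop

theorem length_adjBits {n : ℕ} (X : SimpleGraph (Fin n)) : (adjBits X).length = n * n :=
  List.length_ofFn

theorem adjBits_getD {n : ℕ} (X : SimpleGraph (Fin n)) (u v : Fin n) :
    (adjBits X).getD (u * n + v) false = true ↔ X.Adj u v := by
  have h1 : u * n + v < n * n := by nlinarith [u.2, v.2]
  have hn : 0 < n := Fin.pos u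
  rw [List.getD_eq_getElem _ _ (by rwa [length_adjBits])]
  simp only [adjBits, List.getElem_ofFn, decide_eq_true_eq]
  have d : (u * n + v) / n = u := by
    rw [mul_comm, Nat.mul_add_div hn, Nat.div_eq_of_lt v.2, add_zero]
  have e1 : (⟨_, h1⟩ : Fin (n * n)).divNat = u := Fin.ext (by simp [d])
  have e2 : (⟨_, h1⟩ : Fin (n * n)).modNat = v := Fin.ext (by simp [Nat.mod_eq_of_lt v.2])
  rw [e1, e2]

theorem adjBits_inj {n : ℕ} {X Y : SimpleGraph (Fin n)} (h : adjBits X = adjBits Y) : X = Y := by
  ext u v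
  rw [← adjBits_getD, h, adjBits_getD]

theorem truth_iff {n : ℕ} (X Y : SimpleGraph (Fin n)) :
    truth (adjBits X ++ adjBits Y) ↔ IsGroupLatin X ∧ Nonempty (X ≃g Y) := by
  refine ⟨fun ⟨m, X', Y', h, h'⟩ => ?_, fun h => ⟨n, X, Y, rfl, h⟩⟩
  have h1 := congrArg List.length h
  simp only [List.length_append, length_adjBits] at h1
  obtain rfl : n = m := Nat.mul_self_inj.1 (by omega)
  obtain ⟨a, b⟩ := List.append_inj h (by simp only [length_adjBits])
  rwa [adjBits_inj a, adjBits_inj b]

theorem red_spec {n : ℕ} (X Y : SimpleGraph (Fin n)) :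
    ∃ (G H : Type) (_ : Group G) (_ : Group H) (N : ℕ) (e : Fin N ≃ G) (e' : Fin N ≃ H),
      red (adjBits X ++ adjBits Y) = tbits e ++ tbits e' ∧ (N ≤ n ∨ N = 4) ∧
      (Nonempty (G ≃* H) ↔ IsGroupLatin X ∧ Nonempty (X ≃g Y)) := by
  set x := adjBits X ++ adjBits Y with hx
  have hl : x.length = 2 * (n * n) := by
    rw [hx, List.length_append, length_adjBits, length_adjBits]; ring
  have hv : vn x = n := by
    rw [vn, hl]
    refine countP_range_lt _ _ (by nlinarith [Nat.le_mul_self n]) _ (fun i => ?_)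
    rw [Nat.ble_eq, Nat.mul_le_mul_left_iff two_pos, Nat.mul_self_le_mul_self_iff]
    rfl
  have vX : (gX x).1 = List.range n := by rw [gX, hv]
  have vY : (gY x).1 = List.range n := by rw [gY, hv]
  have aX : ∀ u v : Fin n, adj (gX x) u v = true ↔ X.Adj u v := fun u v => by
    rw [adj, vX, List.length_range, gX, hx, List.getD_append _ _ _ _
      (by rw [length_adjBits]; nlinarith [u.2, v.2]), adjBits_getD]
  have aY : ∀ u v : Fin n, adj (gY x) u v = true ↔ Y.Adj u v := fun u v => by
    rw [adj, vY, List.length_range, gY, hv, hx, ← length_adjBits X, List.drop_left, adjBits_getD]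
  cases h1 : smallB x with
  | true =>
    refine ⟨_, _, inferInstance, inferInstance, 4, e4, e4, by simp [red, h1], Or.inr rfl, ?_⟩
    simp only [smallB, decide_eq_true_eq] at h1
    exact iff_of_true ⟨MulEquiv.refl _⟩ ((truth_iff X Y).1 h1.2)
  | false =>
    cases h2 : passB x with
    | true =>
      have h3 := h2
      simp only [passB, Bool.and_eq_true, Nat.blt_eq] at h3
      obtain ⟨G, _, e, a1, ⟨a2⟩, a3⟩ := sound _ n vX X aX h3.1.2.1 h3.1.2.2
      obtain ⟨H, _, e', b1, ⟨b2⟩, b3⟩ := sound _ n vY Y aY h3.2.1 h3.2.2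
      generalize ord (gX x) = N at e a1 a3
      generalize ord (gY x) = N' at e' b1 b3
      obtain rfl : N = N' := Nat.mul_self_inj.1 (a3.trans b3.symm)
      have : Finite G := Finite.of_equiv _ e
      have : Finite H := Finite.of_equiv _ e'
      have cG : Nat.card G = N := by rw [← Nat.card_congr e, Nat.card_fin]
      have cH : Nat.card H = N := by rw [← Nat.card_congr e', Nat.card_fin]
      have h5 : 5 ≤ N := by
        by_contra h
        have h6 : N * N ≤ 4 * 4 := Nat.mul_le_mul (by omega) (by omega)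
        have h7 : n * n ≤ 16 * 16 := Nat.mul_le_mul (by omega) (by omega)
        omega
      refine ⟨G, H, inferInstance, inferInstance, N, e, e', by simp [red, h1, h2, a1, b1],
        Or.inl (a3 ▸ Nat.le_mul_self N), ?_⟩
      rw [iso_iff (cG.trans cH.symm) (cG ▸ h5)]
      exact ⟨fun ⟨f⟩ => ⟨⟨G, _, ⟨a2⟩⟩, ⟨(a2.trans f).trans b2.symm⟩⟩,
        fun ⟨_, ⟨f⟩⟩ => ⟨(a2.symm.trans f).trans b2⟩⟩
    | false =>
      refine ⟨_, _, inferInstance, inferInstance, 4, e4, e22, by simp [red, h1, h2], Or.inr rfl,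
        iff_of_false ?_ ?_⟩
      · rintro ⟨f⟩
        have h3 : ∀ y : Multiplicative (ZMod 2 × ZMod 2), y * y = 1 := by decide
        have h4 := h3 (f (Multiplicative.ofAdd 1))
        rw [← map_mul, f.map_eq_one_iff] at h4
        revert h4
        decide
      · rintro ⟨h3, ⟨f⟩⟩
        have h4 : 512 < x.length := by
          by_contra h
          rw [smallB, decide_eq_false_iff_not] at h1
          exact h1 ⟨not_lt.1 h, (truth_iff X Y).2 ⟨h3, ⟨f⟩⟩⟩
        have h5 : 17 ≤ n := by
          by_contra h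
          have h7 : n * n ≤ 16 * 16 := Nat.mul_le_mul (by omega) (by omega)
          omega
        have a := complete _ n vX X aX h5 h3
        obtain ⟨G, _, ⟨ψ⟩⟩ := h3
        have b := complete _ n vY Y aY h5 ⟨G, _, ⟨f.symm.trans ψ⟩⟩
        rw [← Nat.blt_eq] at h4
        simp [passB, h4, a, b] at h2

end Pool.Agent.P.MP_f1a348_lc.LI
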